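import Pool.Agent.MP_1246c0_nt.H12.SpecN

/-! The masses for the chosen parameters. -/

namespace Pool.Agent.MP_1246c0_nt.H12

open Finset Filter Topology

namespace NB

theorem pw_eq (σ : ℝ) {p : ℕ} (hp : 0 < p) : (p : ℝ) ^ (-σ) / p = pw σ p := by
  rw [pw, ← Real.rpow_sub_one (Nat.cast_ne_zero.2 hp.ne')]
  congr 1
  ring

theorem pw_nonneg (σ : ℝ) (p : ℕ) : 0 ≤ pw σ p := Real.rpow_nonneg (Nat.cast_nonneg p) _

theorem pw_anti {σ σ' : ℝ} (h : σ ≤ σ') {p : ℕ} (hp : 0 < p) : pw σ' p ≤ pw σ p :=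
  Real.rpow_le_rpow_of_exponent_le (by exact_mod_cast hp) (by linarith)

theorem pw_le_one {σ : ℝ} (h : 0 ≤ σ) {p : ℕ} (hp : 0 < p) : pw σ p ≤ 1 :=
  Real.rpow_le_one_of_one_le_of_nonpos (by exact_mod_cast hp) (by linarith)

theorem sum_le {s : Finset ℕ} (hs : ∀ p ∈ s, p.Prime) {f g : ℕ → ℝ} (hf : Summable f)
    (h0 : ∀ p, 0 ≤ f p) (hg : ∀ p ∈ s, g p ≤ f p) : ∑ p ∈ s, g p ≤ SP' (fun _ => True) f := by
  classical
  have h1 : ∀ p : ℕ, 0 ≤ if p.Prime ∧ True then f p else 0 := fun p => by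
    split_ifs
    exacts [h0 p, le_rfl]
  have h2 : Summable fun p : ℕ => if p.Prime ∧ True then f p else 0 :=
    hf.of_nonneg_of_le h1 fun p => by
      split_ifs
      exacts [le_rfl, h0 p]
  refine le_trans (sum_le_sum fun p hp => ?_) ((h2.sum_le_tsum s fun p _ => h1 p).trans_eq ?_)
  · rw [if_pos ⟨hs p hp, trivial⟩]
    exact hg p hp
  · exact tsum_congr fun p => by congr

theorem mem_OP {X p : ℕ} (h : p ∈ OP X) : p.Prime ∧ p ≠ 2 := (mem_filter.1 h).2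

theorem three_le {X p : ℕ} (h : p ∈ OP X) : 3 ≤ p :=
  lt_of_le_of_ne (mem_OP h).1.two_le (mem_OP h).2.symm

theorem cls_OP (hd : SDEC) {X p : ℕ} (h : p ∈ OP X) (a : ℕ) :
    (a ≤ lev p ∧ eps p = 0 ↔ p % 2 ^ (a + 2) = 1) ∧
      (lev p = a ∧ eps p = 0 ↔ p % 2 ^ (a + 3) = 2 ^ (a + 2) + 1) ∧
      (lev p = a ∧ eps p = 1 ↔ p % 2 ^ (a + 3) = 2 ^ (a + 2) - 1) :=
  have := (hd.cls p ((mem_OP h).1.eq_two_or_odd.resolve_left (mem_OP h).2)
    (mem_OP h).1.one_lt).2.2 a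
  ⟨this.1, this.2.2⟩

theorem a_bd (X j0 : ℕ) {p : ℕ} (hp : 0 < p) :
    0 ≤ ws X j0 p / p ∧ ws X j0 p / p ≤ pw (s2 X) p := by
  unfold ws
  split_ifs
  · rw [pw_eq _ hp]
    exact ⟨pw_nonneg _ _, le_rfl⟩
  · rw [zero_div]
    exact ⟨le_rfl, pw_nonneg _ _⟩

theorem b_bd {X : ℕ} (h : s1 X ≤ s2 X) {p : ℕ} (hp : 0 < p) :
    0 ≤ wb X p / p ∧ wb X p / p ≤ pw (s1 X) p - pw (s2 X) p := by
  unfold wb
  split_ifs
  · rw [sub_div, pw_eq _ hp, pw_eq _ hp]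
    exact ⟨sub_nonneg.2 (pw_anti h hp), le_rfl⟩
  · rw [zero_div]
    exact ⟨le_rfl, sub_nonneg.2 (pw_anti h hp)⟩

theorem two_mod {k b : ℕ} (hk : 1 ≤ k) (hb : Odd b) : ¬ 2 % 2 ^ k = b := by
  rintro rfl
  rw [Nat.odd_iff, Nat.mod_mod_of_dvd _ (dvd_pow_self 2 (by omega))] at hb
  omega

theorem card_le {X : ℕ} {W : Finset ℕ} (h : W ⊆ OP X) : (W.card : ℝ) ≤ ∑ l ∈ W, Real.log l := by
  rw [card_eq_sum_ones, Nat.cast_sum]
  refine sum_le_sum fun l hl => ?_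
  have h3 : (3 : ℝ) ≤ l := by exact_mod_cast three_le (h hl)
  rw [Nat.cast_one, Real.le_log_iff_exp_le (by linarith)]
  linarith [Real.exp_one_lt_d9]

/-- the primes that are used -/
noncomputable abbrev O (X : ℕ) : Finset ℕ := OP ⌊Real.exp (ll X * Real.log X)⌋₊

/-- the masses of the classes of given level -/
theorem cls (hd : SDEC) {X j0 : ℕ} {Λ : ℝ} (h1 : 9 / 10 * 2 ^ (tpX X j0 + j0 + 5) ≤ Λ)
    (h2 : Λ ≤ 2 ^ (tpX X j0 + j0 + 6))
    (hc : ∀ k b, 1 ≤ k → k ≤ tpX X j0 + 3 → Odd b → b < 2 ^ k →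
      2 / 2 ^ k * Λ - 2 ≤ ∑ p ∈ (O X).filter (· % 2 ^ k = b), wb X p / p ∧
        ∑ p ∈ (O X).filter (· % 2 ^ k = b), wb X p / p ≤ 2 / 2 ^ k * Λ + 1)
    (i : ℕ) (hi : i ≤ tpX X j0) (ε : F2) :
    4 * 2 ^ jj (tpX X j0) j0 i ≤ ∑ p ∈ (PP X j0).filter fun l => lev l = i ∧ eps l = ε,
      wb X p / p ∧ ∑ p ∈ (PP X j0).filter fun l => lev l = i ∧ eps l = ε, wb X p / p ≤
        32 * 2 ^ jj (tpX X j0) j0 i := by
  obtain ⟨b, hb, hb2, he⟩ : ∃ b, Odd b ∧ b < 2 ^ (i + 3) ∧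
      ∀ p ∈ O X, (lev p = i ∧ eps p = ε ↔ p % 2 ^ (i + 3) = b) := by
    have h3 : 0 < 2 ^ (i + 1) := by positivity
    have h4 : 2 ^ (i + 2) = 2 * 2 ^ (i + 1) := by ring
    have h5 : 2 ^ (i + 3) = 4 * 2 ^ (i + 1) := by ring
    rcases (by decide : ∀ x : F2, x = 0 ∨ x = 1) ε with rfl | rfl
    · exact ⟨_, Nat.odd_iff.2 (by omega), by omega, fun p hp => (cls_OP hd hp i).2.1⟩
    · exact ⟨_, Nat.odd_iff.2 (by omega), by omega, fun p hp => (cls_OP hd hp i).2.2⟩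
  have e : ((PP X j0).filter fun l => lev l = i ∧ eps l = ε) =
      (O X).filter (· % 2 ^ (i + 3) = b) := by
    rw [PP, filter_filter]
    exact filter_congr fun p hp => by
      rw [← he p hp]
      exact ⟨fun h => h.2, fun h => ⟨h.1.trans_le hi, h⟩⟩
  obtain ⟨h3, h4⟩ := hc (i + 3) b (by omega) (by omega) hb hb2
  have e1 : (2 : ℝ) ^ (tpX X j0 + j0 + 5) = 2 ^ (i + 3) * (4 * 2 ^ jj (tpX X j0) j0 i) := by
    rw [show tpX X j0 + j0 + 5 = i + 3 + (2 + jj (tpX X j0) j0 i) by unfold jj; omega]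
    ring
  have h5 : (1 : ℝ) ≤ 2 ^ jj (tpX X j0) j0 i := one_le_pow₀ one_le_two
  have h6 : (0 : ℝ) < 2 ^ (i + 3) := by positivity
  rw [pow_succ _ (tpX X j0 + j0 + 5)] at h2
  rw [e1] at h1 h2
  have h7 : 9 / 10 * (4 * 2 ^ jj (tpX X j0) j0 i) ≤ Λ / 2 ^ (i + 3) := by
    rw [le_div_iff₀ h6]; linarith
  have h8 : Λ / 2 ^ (i + 3) ≤ 4 * 2 ^ jj (tpX X j0) j0 i * 2 := by
    rw [div_le_iff₀ h6]; linarith
  rw [e]
  rw [div_mul_eq_mul_div, mul_div_assoc] at h3 h4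
  constructor <;> linarith

/-- removing the primes of large level -/
theorem cut (hd : SDEC) {X j0 : ℕ} (h : s1 X ≤ s2 X) (W : Finset ℕ) :
    ∑ p ∈ (O X).filter fun p => p % 2 ^ (tpX X j0 / 2 + 3) = 1 ∧ p ∉ W ∧ ∑ l ∈ W, lg p l = 1,
      wb X p / p ≤ ∑ p ∈ (PP X j0 \ W).filter fun l =>
        tpX X j0 / 2 < lev l ∧ eps l = 0 ∧ ∑ l' ∈ W, lg l l' = 1, wb X p / p +
      ∑ p ∈ (O X).filter (· % 2 ^ (tpX X j0 + 3) = 1), wb X p / p := by
  have h0 : ∀ p : ℕ, 0 ≤ wb X p / p := fun p => by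
    rcases Nat.eq_zero_or_pos p with rfl | hp
    · simp
    · exact (b_bd h hp).1
  rw [← sum_union_inter]
  refine (sum_le_sum_of_subset_of_nonneg (fun p hp => ?_) fun p _ _ => h0 p).trans
    (le_add_of_nonneg_right (sum_nonneg fun p _ => h0 p))
  obtain ⟨h1, h2, h3, h4⟩ := mem_filter.1 hp
  obtain ⟨h5, h6⟩ := (cls_OP hd h1 (tpX X j0 / 2 + 1)).1.2 h2
  rcases le_or_gt (lev p) (tpX X j0) with h7 | h7
  · exact mem_union_left _ (mem_filter.2 ⟨mem_sdiff.2 ⟨mem_filter.2 ⟨h1, h7⟩, h3⟩, h5, h6, h4⟩)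
  · exact mem_union_right _ (mem_filter.2 ⟨h1, (cls_OP hd h1 (tpX X j0 + 1)).1.1 ⟨h7, h6⟩⟩)

end NB

open NB in
theorem rowNB : OfNB := by
  intro hd ⟨C, hC, hm⟩ ⟨C', hC', hdet⟩ hp ht j0
  have hj : (0 : ℝ) < 2 ^ (j0 + 4) := by positivity
  filter_upwards [hp j0 (2000 * (C + C' + 2 ^ (j0 + 4) + 1)), ht 1 one_pos] with X
    ⟨p1, p2, p3, p4, p5, p6, _, p8, p9, p10, _, p12, p13, _⟩ hT
  set K := 2000 * (C + C' + 2 ^ (j0 + 4) + 1) with hK
  set r := ll X with hr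
  set tp := tpX X j0 with htp
  obtain ⟨a1, a2, a3, a4, a5, -⟩ := hm (s1 X) p2 (p3.trans p4)
  obtain ⟨b1, b2, b3, b4, -⟩ := hm (s2 X) (p2.trans_le p3) p4
  have hs2 : 0 < s2 X := p2.trans_le p3
  have hr1 : 2000 ≤ r := by linarith
  have hL : 0 ≤ Real.log r := Real.log_nonneg (by linarith)
  have hX : 0 < Real.log X := by
    by_contra h
    exact p2.not_ge (div_nonpos_of_nonneg_of_nonpos (by norm_num) (not_lt.1 h))
  have hXr : r + 1 ≤ Real.log X := (Real.add_one_le_exp r).trans_eq (Real.exp_log hX)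
  have e1 : 1 / s1 X = Real.log X / 1000 := one_div_div _ _ |>.trans rfl
  have e2 : 1 / s2 X = r ^ 6 := one_div_one_div _
  have e3 : Real.log (1 / s2 X) = 6 * Real.log r := by rw [e2, Real.log_pow]; norm_num
  have hr6 : r ≤ r ^ 6 := le_self_pow₀ (by linarith) (by norm_num)
  have herr : ∀ k : ℕ, k ≤ tp + 3 → K * (((k : ℝ) + 1) ^ 10 * s2 X) ≤ 1 := fun k hk => by
    refine le_trans ?_ p10
    have : (k : ℝ) ≤ tp + 3 := by exact_mod_cast hk
    rw [mul_assoc K]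
    exact mul_le_mul_of_nonneg_left (mul_le_mul_of_nonneg_right
      (pow_le_pow_left₀ (by positivity) (by linarith) _) hs2.le) (by positivity)
  have hc : ∀ k b, 1 ≤ k → k ≤ tp + 3 → Odd b → b < 2 ^ k →
      2 / 2 ^ k * Real.log (s2 X / s1 X) - 2 ≤ ∑ p ∈ (O X).filter (· % 2 ^ k = b), wb X p / p ∧
        ∑ p ∈ (O X).filter (· % 2 ^ k = b), wb X p / p ≤
          2 / 2 ^ k * Real.log (s2 X / s1 X) + 1 := fun k b h1 h2 h3 h4 => by
    obtain ⟨h5, h6⟩ := abs_le.1 (a5 k b _ h1 h3 h4 p3 p4)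
    obtain ⟨h7, h8, -⟩ := hT (· % 2 ^ k = b) (two_mod h1 h3)
    have h9 : C * (((k : ℝ) + 1) ^ 10 * s2 X) ≤ K * (((k : ℝ) + 1) ^ 10 * s2 X) :=
      mul_le_mul_of_nonneg_right (by linarith) (by positivity)
    have h10 := herr k h2
    rw [mul_assoc] at h5 h6
    constructor <;> linarith
  have hU : PP X j0 ⊆ O X := filter_subset _ _
  have hP : ∀ p ∈ PP X j0, p.Prime := fun p h => (mem_OP (hU h)).1
  have hl : ∀ p : ℕ, 0 ≤ Real.log p := fun p => Real.log_natCast_nonneg p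
  have hab : ∀ p ∈ PP X j0, ws X j0 p / p + wb X p / p ≤ pw (s1 X) p := fun p h => by
    linarith [(a_bd X j0 (hP p h).pos).2, (b_bd p3 (hP p h).pos).2]
  have hsa : ∑ p ∈ PP X j0, ws X j0 p / p ≤ 6 * Real.log r + C := by
    have := sum_le hP b2 (pw_nonneg _) fun p h => (a_bd X j0 (hP p h).pos).2
    linarith [(abs_le.1 b4).2]
  have hKL : 2000 * (C + C' + 2 ^ (j0 + 4) + 1) + 2000 * (C' + 1) * Real.log r ≤
      K * (Real.log r + 1) := by
    have := mul_nonneg (add_nonneg hC hj.le) hL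
    rw [hK]
    linarith
  have hCL := mul_nonneg hC' hL
  refine ⟨fun p h => ⟨hP p h, (mem_OP (hU h)).2, Nat.zero_le _⟩,
    fun p h => ⟨(a_bd X j0 (hP p h).pos).1, (b_bd p3 (hP p h).pos).1,
      (hab p h).trans (pw_le_one p2.le (hP p h).pos)⟩, fun p _ h => ?_,
    cls hd (by linarith) (by linarith) hc, by linarith, ?_, ?_, ?_, fun W hW hne hs => ?_⟩
  · by_contra h1
    exact h (by rw [ws, if_neg h1, zero_div])
  · have h1 := sum_le hP a2 (pw_nonneg _) (g := fun p => wb X p / p) fun p h => by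
      linarith [hab p h, (a_bd X j0 (hP p h).pos).1]
    have h2 : Real.log (1 / s1 X) ≤ r := by
      rw [e1]
      exact Real.log_le_log (by positivity) (by linarith)
    linarith [(abs_le.1 a4).2]
  · have h1 := sum_le hP b1 (fun p => mul_nonneg (hl p) (pw_nonneg _ _))
      (g := fun p => ws X j0 p / p * Real.log p) fun p h => by
        rw [mul_comm]
        exact mul_le_mul_of_nonneg_left (a_bd X j0 (hP p h).pos).2 (hl p)
    linarith
  · have h1 := sum_le hP a1 (fun p => mul_nonneg (hl p) (pw_nonneg _ _))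
      (g := fun p => (ws X j0 p / p + wb X p / p) * Real.log p) fun p h => by
        rw [mul_comm]
        exact mul_le_mul_of_nonneg_left (hab p h) (hl p)
    linarith
  · have h1 := hdet (tp / 2 + 3) W (s1 X) (s2 X) (by omega) hne
      (fun l h => ⟨hP l (hW h), (mem_OP (hU (hW h))).2, Nat.zero_le _⟩) p2 p3 p4
    have h2 := (hT (fun p => p % 2 ^ (tp / 2 + 3) = 1 ∧ p ∉ W ∧ ∑ l ∈ W, lg p l = 1)
      fun h => two_mod (by omega) odd_one h.1).2.1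
    have h3 := cut (j0 := j0) hd p3 W
    have h4 := (hc (tp + 3) 1 (by omega) le_rfl odd_one (Nat.one_lt_two_pow (by omega))).2
    have h5 : 2 / 2 ^ (tp + 3) * Real.log (s2 X / s1 X) ≤ 2 ^ (j0 + 4) := by
      rw [div_mul_eq_mul_div, div_le_iff₀ (by positivity)]
      have : (2 : ℝ) ^ (j0 + 4) * 2 ^ (tp + 3) = 2 * 2 ^ (tp + j0 + 6) := by ring
      linarith
    have h6 : 9 / 80 * (K * (Real.log r + 1)) ≤ 1 / 2 ^ (tp / 2 + 3) * Real.log (s2 X / s1 X) := by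
      rw [one_div_mul_eq_div, le_div_iff₀ (by positivity), pow_add]
      linarith
    have h7 : (((tp / 2 + 3 : ℕ) : ℝ) + 1) ^ 10 * s2 X ≤ 1 :=
      (le_mul_of_one_le_left (by positivity) (by linarith)).trans (herr _ (by omega))
    have h8 : s2 X * W.card ≤ 200 := by
      have := (card_le (hW.trans hU)).trans hs
      rw [← e2, mul_one_div, le_div_iff₀' hs2] at this
      exact this
    have h9 : ((tp / 2 + 3 : ℕ) : ℝ) ≤ r := by
      refine le_trans ?_ p5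
      have : tp / 2 + 3 ≤ 2 ^ (tp + j0 + 5) := le_trans (by omega) Nat.lt_two_pow_self.le
      exact_mod_cast this
    have h10 : Real.log (5 + (tp / 2 + 3 : ℕ) + ∑ l ∈ W, Real.log l) ≤ 7 * Real.log r := by
      have h11 : 0 ≤ ∑ l ∈ W, Real.log l := sum_nonneg fun l _ => hl l
      have h12 : 2000 * r ^ 6 ≤ r * r ^ 6 := mul_le_mul_of_nonneg_right hr1 (by positivity)
      refine (Real.log_le_log (by positivity) (show _ ≤ r ^ 7 by linarith)).trans_eq ?_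
      rw [Real.log_pow]
      norm_num
    have h11 := mul_le_mul_of_nonneg_left
      (add_le_add (add_le_add (add_le_add (add_le_add h7 h10) e3.le) (le_refl (1 : ℝ))) h8) hC'
    linarith

end Pool.Agent.MP_1246c0_nt.H12
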