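import Pool.Agent.MP_1246c0_nt.H25.SpecA
import Pool.Agent.MP_1246c0_nt.R59.BR

/-! Passage from the tower of algebraic numbers to the complex numbers. -/

namespace Pool.Agent.MP_1246c0_nt.H25

open NumberField IntermediateField Polynomial Pool.Agent.MP_1246c0_nt.H12
open Pool.Agent.MP_1246c0_nt.H55 (kD)

namespace BRG

theorem model {L : Type} [Field L] [NumberField L] {d n : ℕ} {s θ : L} {σ γ : L ≃ₐ[ℚ] L}
    (h : Tq L d n s θ σ γ) {ζ : ℂ} (hζ : IsPrimitiveRoot ζ (2 ^ (n + 2)))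
    {K : IntermediateField ℚ ℂ} (hK : K ≤ adjoin ℚ {ζ}) (hr : Module.finrank ℚ K = 2 ^ n)
    (him : ∀ x ∈ K, x.im = 0) {D : ℕ} {c : ℂ} (hc : c ∈ K) (c0 : c ≠ 0) (hD : c ^ 2 * d = D) :
    Nonempty (L ≃+* ↥(kD D ⊔ K)) := by
  let φ : L →ₐ[ℚ] ℂ := IsAlgClosed.lift
  have hs : ((Real.sqrt D : ℝ) : ℂ) ^ 2 = D := by
    rw [← Complex.ofReal_pow, Real.sq_sqrt (Nat.cast_nonneg D), Complex.ofReal_natCast]
  have hp : (X ^ 2 - C (D : ℚ)).Monic := monic_X_pow_sub_C _ two_ne_zero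
  have ha : aeval ((Real.sqrt D : ℝ) : ℂ) (X ^ 2 - C (D : ℚ)) = 0 := by simp [hs]
  have hint : IsIntegral ℚ ((Real.sqrt D : ℝ) : ℂ) := ⟨_, hp, ha⟩
  have : FiniteDimensional ℚ (kD D) := adjoin.finiteDimensional hint
  have : FiniteDimensional ℚ K := Module.finite_of_finrank_pos (by rw [hr]; positivity)
  have h2 : Module.finrank ℚ (kD D) ≤ 2 := by
    rw [kD, adjoin.finrank hint]
    exact (natDegree_le_natDegree (minpoly.min ℚ _ hp ha)).trans natDegree_X_pow_sub_C.le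
  have e : φ.fieldRange = kD D ⊔ K := by
    refine eq_of_le_of_finrank_le ?_ ?_
    · rw [AlgHom.fieldRange_eq_map, ← h.gen, adjoin_map, adjoin_le_iff]
      rintro _ ⟨x, rfl | rfl, rfl⟩
      · have h3 : (c * φ x) ^ 2 = ((Real.sqrt D : ℝ) : ℂ) ^ 2 := by
          rw [hs, mul_pow, ← map_pow, h.sq, map_natCast, hD]
        have h4 := (le_sup_left : kD D ≤ kD D ⊔ K) (mem_adjoin_simple_self ℚ _)
        rw [← mul_div_cancel_left₀ (φ x) c0]
        refine div_mem ?_ ((le_sup_right : K ≤ kD D ⊔ K) hc)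
        rcases sq_eq_sq_iff_eq_or_eq_neg.1 h3 with e | e
        · exact e ▸ h4
        · exact e ▸ neg_mem h4
      · refine (le_sup_right : K ≤ kD D ⊔ K) (BR.mem_real hζ hK hr him ?_)
        exact (BR.map_tw φ.toRingHom n x).symm.trans (by rw [h.root, map_zero])
    · rw [← φ.equivFieldRange.toLinearEquiv.finrank_eq, h.rk, pow_succ', ← hr]
      exact (finrank_sup_le _ _).trans (Nat.mul_le_mul_right _ h2)
  exact ⟨(φ.equivFieldRange.trans (equivOfEq e)).toRingEquiv⟩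

theorem root (n : ℕ) (y : ℂ) : ∃ t : ℂ, tw^[n] t = y := by
  refine Function.Surjective.iterate (fun y => ?_) n y
  obtain ⟨t, ht⟩ := IsAlgClosed.exists_pow_nat_eq (y + 2) two_pos
  exact ⟨t, by rw [tw, ht, add_sub_cancel_right]⟩

end BRG

open BRG in
theorem rowBRG : OfBRG := fun _ TQ d h1 h2 h3 ⟨B, hB⟩ => by
  have key : ∀ D : ℕ, (∀ K : IntermediateField ℚ ℂ, ∀ u ∈ K, u ^ 2 = 2 →
      ∃ c ∈ K, c ≠ 0 ∧ c ^ 2 * d = D) → Green2 (kD D) := fun D H => by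
    refine ⟨B, fun n hn ζ hζ K hK hr him => ?_⟩
    obtain ⟨s, θ, σ, γ, -, -, h⟩ := TQ.ex d n h1 h2 h3
    obtain ⟨t, ht⟩ := root n 0
    have m : ∀ k, tw^[k] t ∈ K := fun k => Function.Iterate.rec (· ∈ K)
      (BR.mem_real hζ hK hr him ht) (fun x hx => sub_mem (pow_mem hx 2) (ofNat_mem K 2)) k
    obtain ⟨k, rfl⟩ := Nat.exists_eq_add_of_le' hn
    obtain ⟨c, hc, c0, e⟩ := H K _ (m k)
      (by rwa [Function.iterate_succ_apply', tw, sub_eq_zero] at ht)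
    obtain ⟨e⟩ := model h hζ hK hr him hc c0 e
    rw [← Nat.card_congr (ClassGroup.mulEquiv (RingOfIntegers.mapRingEquiv e)).toEquiv]
    exact hB _
  refine ⟨key _ fun K _ _ _ => ⟨1, one_mem K, one_ne_zero, by simp⟩,
    key _ fun K _ _ _ => ⟨2, ofNat_mem K 2, two_ne_zero, by push_cast; ring⟩,
    key _ fun K u hu e => ⟨2 * u, mul_mem (ofNat_mem K 2) hu, ?_, ?_⟩⟩
  · exact mul_ne_zero two_ne_zero fun q => by simp [q] at e
  · push_cast
    linear_combination 4 * d * e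

end Pool.Agent.MP_1246c0_nt.H25
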