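import Pool.Agent.MP_1246c0_nt.H25.SpecN

/-! Cancellation in a cell. -/

namespace Pool.Agent.MP_1246c0_nt.H25

open Finset Matrix Filter Function Pool.Agent.MP_db5b97_nt.H85
open Pool.Agent.MP_1246c0_nt.H12

namespace CL1

theorem sum_opt {D β : Type} [Fintype D] [DecidableEq D] (A : Option D → Finset β)
    (f : (Option D → β) → ℝ) : ∑ y ∈ Fintype.piFinset A, f y =
      ∑ z ∈ Fintype.piFinset fun s => A (some s), ∑ q ∈ A none, f fun o => o.elim q z := by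
  rw [← sum_product']
  refine sum_nbij' (fun y => (fun s => y (some s), y none)) (fun w o => o.elim w.2 w.1)
    (fun y hy => ?_) (fun w hw => ?_) (fun y _ => ?_) (fun w _ => rfl) fun y _ => ?_
  · rw [Fintype.mem_piFinset] at hy
    exact mem_product.2 ⟨Fintype.mem_piFinset.2 fun s => hy _, hy _⟩
  · rw [mem_product, Fintype.mem_piFinset] at hw
    exact Fintype.mem_piFinset.2 fun o => by cases o; exacts [hw.2, hw.1 _]
  · funext o; cases o <;> rfl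
  · congr 1; funext o; cases o <;> rfl

theorem ext_eq {ι : Type} [DecidableEq ι] {k : ℕ} (e : Option (Fin k) ↪ ι) {b : ι}
    (hb : ∀ o, e o ≠ b) (xs : ι → ℕ) (y : Option (Fin k) → ℕ) (q : ℕ) :
    extend e y (update xs b q) = extend (eb e b) (fun o => o.elim q y) xs := by
  have inj : (eb e b).Injective := by
    rintro (_ | o) (_ | o') h
    · rfl
    · exact absurd h.symm (hb o')
    · exact absurd h (hb o)
    · exact congrArg some (e.injective h)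
  funext l
  by_cases h : ∃ o, e o = l
  · obtain ⟨o, rfl⟩ := h
    exact (e.injective.extend_apply _ _ o).trans
      (inj.extend_apply (fun o => o.elim q y) xs (some o)).symm
  rw [extend_apply' _ _ _ h]
  by_cases h' : l = b
  · subst h'
    exact (update_self ..).trans (inj.extend_apply (fun o => o.elim q y) xs none).symm
  rw [update_of_ne h', extend_apply']
  rintro ⟨_ | o, rfl⟩
  exacts [h' rfl, h ⟨o, rfl⟩]

theorem cl_update {ι : Type} [Fintype ι] [DecidableEq ι] {k : ℕ} (S : Sy) (n P : ℕ)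
    (e : Option (Fin k) ↪ ι) (b : ι) (xs : ι → ℕ) (q : ℕ) :
    cl S n P e b (update xs b q) = cl S n P e b xs := by
  funext y
  simp only [cl]
  congr 2
  funext l
  split_ifs with h
  · rfl
  · rw [update_of_ne fun c => h (.inr c)]

theorem gv_mono {I : Type} [Fintype I] [DecidableEq I] {Φ : Frm} {n : ℕ} {z : I → ℕ}
    {Q : Finset Ga} {φ : ℕ → Ga → Xi n I → F2} {A B : Set ℕ} (h : Gv Φ n z Q φ A) (s : B ⊆ A) :
    Gv Φ n z Q φ B :=
  ⟨fun p a => h.coc p (s a), fun p a => h.inv p (s a), fun p a => h.own p (s a),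
    fun p a p' b => h.oth p (s a) p' (s b), fun p a p' b => h.unr p (s a) p' (s b),
    fun p a p' b => h.cls p (s a) p' (s b)⟩

theorem rect {Y T U V : ℕ} {δ : ℝ} (h : Bil (fun p p' (_ : Unit) => lg p p') (Gd 0) Y T δ)
    {A B : Finset ℕ} (hA : ∀ y ∈ A, Gd 0 y ∧ Y < y ∧ y ≤ U) (hB : ∀ y ∈ B, Gd 0 y ∧ Y < y ∧ y ≤ V)
    (hU : 1 ≤ U) (hV : 1 ≤ V) (hne : ∀ z ∈ A, ∀ p ∈ B, z ≠ p) (hT : U * V ≤ T) {u v : ℕ → ℝ}
    (hu : ∀ p, |u p| ≤ 1) (hv : ∀ p, |v p| ≤ 1) :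
    |∑ z ∈ A, ∑ p ∈ B, u z * v p * sg (lg z p)| ≤ δ * U * V := by
  have cut : ∀ (A : Finset ℕ) (u : ℕ → ℝ), (∀ p, |u p| ≤ 1) →
      ∀ p, |if p ∈ A then u p else 0| ≤ 1 := fun A u hu p => by
    split_ifs
    exacts [hu p, by simp]
  have := h univ univ_nonempty _ _ (cut A u hu) (cut B v hv)
    (fun p a => by by_cases c : p ∈ A; exacts [⟨(hA p c).1, (hA p c).2.1⟩, absurd (if_neg c) a])
    (fun p a => by by_cases c : p ∈ B; exacts [⟨(hB p c).1, (hB p c).2.1⟩, absurd (if_neg c) a])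
    (U * V) hT
  have sA : A ⊆ range (U * V + 1) := fun y a => mem_range.2 (Nat.lt_succ_of_le
    ((hA y a).2.2.trans (Nat.le_mul_of_pos_right _ hV)))
  have sB : B ⊆ range (U * V + 1) := fun y a => mem_range.2 (Nat.lt_succ_of_le
    ((hB y a).2.2.trans (Nat.le_mul_of_pos_left _ hU)))
  rw [← sum_subset sA fun z _ c => sum_eq_zero fun p _ => by simp [c], Nat.cast_mul,
    ← mul_assoc] at this
  convert this using 2
  refine sum_congr rfl fun z a => ?_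
  rw [← sum_subset sB fun p _ c => by simp [c]]
  refine sum_congr rfl fun p c => ?_
  rw [if_pos ⟨Nat.mul_le_mul (hA z a).2.2 (hB p c).2.2, hne z a p c⟩, if_pos a, if_pos c]
  simp

theorem num {Z Y G C N c R V T : ℕ} {δ : ℝ} (hZ : 1 ≤ Z) (hC : 7 * G + N ≤ C) (hG : 1 ≤ G)
    (hR : R ≤ (2 * Z) ^ G * 2 ^ (G * (5 + c))) (hY : (2 * Z) ^ C ≤ Y) (hV : 1 ≤ V) (hT : V ≤ T)
    (hδ : 0 ≤ δ)
    (h : (2 * Z : ℝ) ^ C * 2 ^ (C * c) * (Real.log T + 2) ≤ δ * (Y : ℝ) ^ (1 / C : ℝ)) :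
    (R : ℝ) * 2 ^ N * ((2 * Z : ℝ) ^ G * (Real.log V + 2) / (Y : ℝ) ^ (1 / G : ℝ)) ≤ δ := by
  have z : 2 ≤ 2 * Z := by omega
  have a : R * 2 ^ N * (2 * Z) ^ G ≤ (2 * Z) ^ C * 2 ^ (C * c) :=
    calc _ ≤ (2 * Z) ^ G * 2 ^ (G * (5 + c)) * 2 ^ N * (2 * Z) ^ G := by gcongr
      _ = (2 * Z) ^ (2 * G) * 2 ^ (5 * G + N) * 2 ^ (G * c) := by ring
      _ ≤ (2 * Z) ^ (2 * G) * (2 * Z) ^ (5 * G + N) * 2 ^ (C * c) := by
        gcongr
        exacts [one_le_two, by omega]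
      _ ≤ _ := by
        rw [← pow_add]
        gcongr
        exacts [by omega, by omega]
  have a' : (R : ℝ) * 2 ^ N * (2 * Z : ℝ) ^ G ≤ (2 * Z : ℝ) ^ C * 2 ^ (C * c) := by exact_mod_cast a
  have y : (1 : ℝ) ≤ Y := by exact_mod_cast (Nat.one_le_pow _ _ (by omega)).trans hY
  have v : (1 : ℝ) ≤ V := by exact_mod_cast hV
  have l := Real.log_nonneg v
  have l' : Real.log V ≤ Real.log T := Real.log_le_log (by linarith) (by exact_mod_cast hT)
  have r : (Y : ℝ) ^ (1 / C : ℝ) ≤ (Y : ℝ) ^ (1 / G : ℝ) := Real.rpow_le_rpow_of_exponent_le y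
    (one_div_le_one_div_of_le (by exact_mod_cast hG) (by exact_mod_cast (by omega : G ≤ C)))
  rw [← mul_div_assoc, ← mul_assoc, div_le_iff₀ (by positivity)]
  exact (mul_le_mul a' (by linarith) (by linarith) (by positivity)).trans
    (h.trans (mul_le_mul_of_nonneg_left r hδ))

theorem pv {k M : ℕ} {zs : Fin k → ℕ} {ζ : Fin k × Fin M → ℕ} (h1 : ∀ s, (zs s).Prime)
    (h2 : ∀ i, Gd 0 (ζ i)) (inj : ζ.Injective) (ne : ∀ i s, ζ i ≠ zs s) :
    Pv (fun q => zs q.1 * ζ q) ζ := by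
  refine ⟨fun i => mul_ne_zero (h1 _).ne_zero (h2 i).1.ne_zero, h2, fun i j => ?_⟩
  have := Fact.mk (h2 i).1
  have := Fact.mk (h2 j).1
  have := Fact.mk (h1 j.1)
  rw [padicValNat.mul (h1 _).ne_zero (h2 j).1.ne_zero, padicValNat_primes (ne i j.1), zero_add]
  split_ifs with c
  · rw [c, padicValNat_self]
  · exact padicValNat_primes fun e => c (inj e).symm

theorem spl (hQ : SQR) {k M n p : ℕ} {zs : Fin k → ℕ} {ζ : Fin k × Fin M → ℕ} (hp : Gd n p)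
    (h1 : ∀ s, 0 < zs s ∧ zs s < p) (h2 : ∀ i, 0 < ζ i ∧ ζ i < p)
    (h : ∀ i, lg (zs i.1) p + lg (ζ i) p = 0) : Spl n (fun q => zs q.1 * ζ q) p := by
  have a := fun s => Nat.not_dvd_of_pos_of_lt (h1 s).1 (h1 s).2
  have b := fun i => Nat.not_dvd_of_pos_of_lt (h2 i).1 (h2 i).2
  refine ⟨hp, fun i => ⟨fun c => (hp.1.dvd_mul.1 c).elim (a _) (b _), ?_⟩⟩
  rw [← h i, lg, Nat.cast_mul]
  exact hQ.mul p _ _ ⟨hp.1, hp.2.1, Nat.zero_le _⟩ (mt (ZMod.natCast_eq_zero_iff _ _).1 (a _))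
    (mt (ZMod.natCast_eq_zero_iff _ _).1 (b _))

end CL1

open CL1 in
theorem rowCL1 : OfCL1 := by
  classical
  intro hQ hGRT hGOV hSMP hFOU hADM ℓ k n κ η hk hη
  obtain ⟨c, hc⟩ : ∃ c : ℕ, c = 2 ^ (κ * (k + 1) + ℓ) := ⟨_, rfl⟩
  have c1 : (1 : ℝ) ≤ c := by rw [hc]; exact_mod_cast Nat.one_le_two_pow
  have c0 : (0 : ℝ) < c := by linarith
  obtain ⟨θ, hθ⟩ : ∃ θ : ℝ, θ = min η 1 / (2 * c) := ⟨_, rfl⟩
  have θ0 : 0 < θ := by rw [hθ]; positivity
  have θc : 2 * θ * c = min η 1 := by rw [hθ]; field_simp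
  have θ1 : 2 * θ ≤ 1 := (le_mul_of_one_le_right (by positivity) c1).trans
    (θc.le.trans (min_le_right _ _))
  obtain ⟨M, hM, Bd, hBd, grt⟩ := hGRT ℓ k n κ θ hk θ0
  obtain ⟨G, hG, gov⟩ := hGOV n (k * M)
  obtain ⟨N, hN⟩ : ∃ N, N = M * Fintype.card (Xi n (Fin k × Fin M)) := ⟨_, rfl⟩
  obtain ⟨K, hK⟩ : ∃ K, K = 4 ^ (k * M) * (k * (M + 1) + 2) ^ 2 := ⟨_, rfl⟩
  refine ⟨7 * G + N + c * K, by omega, ?_⟩
  intro ι _ _ S μ J P i1 b e xs cf A U Y Z Y' T δ ax hn ok hJ hb hcf hA hZ hY' hcl hT bil hδ hZY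
    big
  obtain ⟨g, s, u, a, n'⟩ := μ
  obtain rfl : n = n' := hn.symm
  have δ0 : 0 ≤ δ := le_of_not_gt fun h => by nlinarith [(Nat.cast_nonneg Y : (0 : ℝ) ≤ Y)]
  have p1 : (0 : ℝ) ≤ ∏ o, ((A o).card : ℝ) := prod_nonneg fun _ _ => Nat.cast_nonneg _
  have p2 : (0 : ℝ) ≤ δ * ∏ o, (U o : ℝ) := mul_nonneg δ0 (prod_nonneg fun _ _ => Nat.cast_nonneg _)
  by_cases hne : ∃ o, A o = ∅
  · obtain ⟨o, ho⟩ := hne
    rw [Fintype.piFinset_eq_empty.2 ⟨o, ho⟩, sum_empty, abs_zero, mul_assoc]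
    exact add_nonneg (mul_nonneg hη.le p1) (mul_nonneg (Nat.cast_nonneg _) p2)
  have ne : ∀ o, ∃ y, y ∈ A o := fun o => nonempty_iff_ne_empty.2 fun h => hne ⟨o, h⟩
  have YU : ∀ o, Y < U o := fun o => (ne o).elim fun y h => (hA o y h).2.1.trans_le (hA o y h).2.2
  have U1 : ∀ o, 1 ≤ U o := fun o => (Nat.zero_le _).trans_lt (YU o)
  have cU : ∀ o, ((A o).card : ℝ) ≤ U o := fun o => by
    have : A o ⊆ Ioc 0 (U o) := fun y h => mem_Ioc.2 ⟨(hA o y h).1.1.pos, (hA o y h).2.2⟩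
    have := card_le_card this
    rw [Nat.card_Ioc, Nat.sub_zero] at this
    exact_mod_cast this
  have UT : ∀ o o', o ≠ o' → U o * U o' ≤ T := fun o o' h => by
    rw [← prod_pair h]
    exact (prod_le_prod_of_subset_of_one_le' (subset_univ _) fun i _ _ => U1 i).trans hT
  have A0 : ∀ o, ∀ y ∈ A o, Gd 0 y ∧ Y < y ∧ y ≤ U o := fun o y h =>
    ⟨⟨(hA o y h).1.1, (hA o y h).1.2.1, Nat.zero_le _⟩, (hA o y h).2⟩
  have Z1 : 1 ≤ Z := (ne (some (some ⟨0, by omega⟩))).elim fun y h =>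
    (hA _ y h).1.1.pos.trans_le (hZ _ y h)
  have ZG : (2 * Z) ^ G ≤ Y' := (Nat.pow_le_pow_right (by omega) (by omega)).trans hZY
  have ZY : Z < Y' := lt_of_lt_of_le (by omega) ((Nat.le_self_pow (by omega) _).trans ZG)
  have y1 : ∀ y ∈ A none, Y' < y := fun y h => hY' y (mem_union_left _ h)
  have y2 : ∀ y ∈ A (some none), Y' < y := fun y h => hY' y (mem_union_right _ h)
  obtain ⟨F, hF⟩ : ∃ F : (Fin k → ℕ) → ℕ → ℕ → ℝ, ∀ z p q, F z p q = fv S.Φ ⟨g, s, u, a, n⟩ P i1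
      e b κ cf (extend (eb e b) (fun o => o.elim q fun o' => o'.elim p z) xs) / c :=
    ⟨_, fun _ _ _ => rfl⟩
  have F1 : ∀ z p q, |F z p q| ≤ 1 := fun z p q => by
    rw [hF, abs_div, abs_of_pos c0, div_le_one c0, hc]
    refine (hADM.bd ι ℓ k κ S _ _ P J i1 b e cf ax ok hk hJ hcf).trans ?_
    rw [ind]
    split_ifs <;> simp
  have key := hSMP k M (fun s => A (some (some s))) (A (some none)) (A none)
    (fun s => U (some (some s))) (U (some none)) (U none) (2 * θ) δ lg F hM (by positivity) θ1 δ0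
    (fun s => ⟨cU _, hδ.trans (mul_le_mul_of_nonneg_left (by exact_mod_cast (YU _).le) δ0)⟩)
    (cU _) (cU _) F1 (fun s u v hu hv => ⟨rect bil (A0 _) (A0 _) (U1 _) (U1 _)
      (fun z h p h' => (((hZ s z h).trans_lt ZY).trans (y2 p h')).ne) (UT _ _ (by simp)) hu hv,
      rect bil (A0 _) (A0 _) (U1 _) (U1 _)
      (fun z h p h' => (((hZ s z h).trans_lt ZY).trans (y1 p h')).ne) (UT _ _ (by simp)) hu hv⟩) ?_
  · have e1 : ∑ y ∈ Fintype.piFinset A, fv S.Φ ⟨g, s, u, a, n⟩ P i1 e b κ cf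
        (extend (eb e b) y xs) = c * ∑ z ∈ Fintype.piFinset fun s => A (some (some s)),
          ∑ p ∈ A (some none), ∑ q ∈ A none, F z p q := by
      rw [sum_opt, sum_opt]
      simp only [mul_sum, hF, mul_div_cancel₀ _ c0.ne']
    rw [e1, abs_mul, abs_of_pos c0]
    refine (mul_le_mul_of_nonneg_left key c0.le).trans ?_
    simp only [Fintype.prod_option] at p1 p2 ⊢
    have p3 : (c * (4 ^ (k * M) * (k * (M + 1) + 2) ^ 2) : ℝ) ≤ (7 * G + N + c * K : ℕ) := by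
      have := Nat.le_add_left (c * K) (7 * G + N)
      rw [hK] at this ⊢
      exact_mod_cast this
    have p4 := mul_le_mul_of_nonneg_right (θc.le.trans (min_le_left _ _)) p1
    have p5 := mul_le_mul_of_nonneg_right p3 p2
    linarith
  intro zs ζ h1 h2 inj nz
  obtain ⟨Q, hQ'⟩ : ∃ Q : Finset Ga, Q = {S.Φ.fr P, S.Φ.fr 2, S.Φ.f2, S.Φ.cj, S.Φ.f2 * S.Φ.sg 2} ∪
    univ.image fun l => S.Φ.fr (xs l) := ⟨_, rfl⟩
  have Qc : Q.card ≤ 5 + Fintype.card ι := hQ' ▸ (card_union_le _ _).trans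
    (add_le_add card_le_five card_image_le)
  obtain ⟨R, τ, φ, hR, gv, eq⟩ := gov (Fin k × Fin M) S.Φ (fun q => zs q.1 * ζ q) ζ Z Q ax.one
    (pv (fun s => (hA _ _ (h1 s)).1.1) (fun i => (A0 _ _ (h2 i)).1) inj nz) (by simp) Z1
    (fun i => sq Z ▸ Nat.mul_le_mul (hZ _ _ (h1 _)) (hZ _ _ (h2 i))) fun i => by
      rw [Nat.primeFactors_mul (hA _ _ (h1 _)).1.1.ne_zero (hA _ _ (h2 i)).1.1.ne_zero,
        (hA _ _ (h1 _)).1.1.primeFactors, (hA _ _ (h2 i)).1.1.primeFactors]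
      exact (card_union_le _ _).trans (by simp)
  have sp : ∀ o, (∀ y ∈ A o, Y' < y) → ∀ p ∈ (A o).filter fun p =>
      ∀ i : Fin k × Fin M, lg (zs i.1) p + lg (ζ i) p = 0,
      Spl n (fun q => zs q.1 * ζ q) p ∧ Y' < p ∧ p ≤ U o := fun o ho p hp => by
    obtain ⟨m, hp⟩ := mem_filter.1 hp
    exact ⟨spl hQ (hA o p m).1
      (fun s => ⟨(hA _ _ (h1 s)).1.1.pos, ((hZ _ _ (h1 s)).trans_lt ZY).trans (ho p m)⟩)
      (fun i => ⟨(hA _ _ (h2 i)).1.1.pos, ((hZ _ _ (h2 i)).trans_lt ZY).trans (ho p m)⟩) hp,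
      ho p m, (hA o p m).2.2⟩
  have M0 : (0 : ℝ) < (M : ℝ) ^ k := by positivity
  have fou := hFOU _ M R Bd _ _ τ (fun p q => φ p (S.Φ.fr q))
    (fun p q => (∑ x : Fin k → Fin M, F (fun s => ζ (s, x s)) p q) / M ^ k) θ _ hM θ0.le
    (by have := Real.log_natCast_nonneg (U none); positivity) hBd (fun p q => ?_) ?_
    fun μ u v hμ hu hv => eq μ _ _ u v _ _ Y' hμ ZG (sp _ y2) (sp _ y1) hu hv
  · simp only [← sum_div] at fou
    rw [abs_div, abs_of_pos M0, div_le_iff₀' M0] at fou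
    refine fou.trans (mul_le_mul_of_nonneg_left (add_le_add le_rfl ?_) M0.le)
    rw [← hN, ← mul_assoc, ← mul_assoc]
    have := num Z1 (Nat.le_add_right _ _) hG (hR.trans (Nat.mul_le_mul_left _
      (Nat.pow_le_pow_right two_pos (Nat.mul_le_mul_left _ Qc)))) hZY (U1 none)
      ((Nat.le_mul_of_pos_right _ (U1 _)).trans (UT none (some none) (by simp))) δ0 big
    gcongr
  · rw [abs_div, abs_of_pos M0, div_le_one M0]
    refine (abs_sum_le_sum_abs _ _).trans ((sum_le_sum fun x _ => F1 _ p q).trans ?_)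
    simp
  intro ps hps hτ q hq bd
  have mp := fun r => (mem_filter.1 (hps r)).1
  have := grt ι S g s u a J P i1 b e (update xs b q) ζ zs ps Q φ cf ax ok hJ
    ⟨hb, inj, fun s => (hA _ _ (h1 s)).1.1.ne_zero,
      fun r i => (((hZ _ _ (h2 i)).trans_lt ZY).trans (y2 _ (mp r))).ne',
      gv_mono (gv (τ (ps ⟨0, hM⟩))) (Set.range_subset_iff.2 fun r =>
        ⟨(sp _ y2 _ (hps r)).1, ZG.trans_lt (y2 _ (mp r)), hτ _ _⟩),
      by simp [hQ'], fun l _ h => by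
        rw [update_of_ne h, hQ']
        exact mem_union_right _ (mem_image_of_mem _ (mem_univ l))⟩
    (by rwa [update_self]) hcf
    (fun s i i' => by rw [cl_update]; exact hcl _ _ (h2 (s, i)) _ (h2 (s, i')))
    fun r r' => by rw [cl_update]; exact hcl _ _ (mp r) _ (mp r')
  rw [← Fintype.piFinset_univ, sum_opt, Fintype.piFinset_univ, sum_comm] at this
  simp only [tup, ext_eq e hb, Option.elim_none, Option.elim_some] at this
  simp only [hF, ← sum_div]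
  rw [abs_div, abs_div, abs_of_pos M0, abs_of_pos c0, div_le_iff₀ M0, div_le_iff₀ c0]
  refine this.trans ?_
  rw [pow_succ', ← mul_assoc]
  exact le_mul_of_one_le_right (by positivity) c1

end Pool.Agent.MP_1246c0_nt.H25
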